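import Pool.Agent.H92.EHD.TR

/-!
Board ehd_modules (MP_75a732_an), row RDO: domination of densities.
-/

namespace Pool.Agent.H96.EHD

open scoped BigOperators ComplexConjugate ContDiff ComplexOrder
open MeasureTheory Pool.Agent.H92.EQ Pool.Agent.H92.EHD

noncomputable section

theorem rdo_rad {N : ℕ} (z : Fin N → ℂ) : (Rad z).PosSemidef := by
  have h1 : (Matrix.vecMulVec (star z) (star (star z))).PosSemidef :=
    Matrix.posSemidef_vecMulVec_self_star (star z)
  have h2 : Rad z = (((4 * nsq z ^ 2)⁻¹ : ℝ) : ℂ) •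
      Matrix.vecMulVec (star z) (star (star z)) := by
    ext a b
    simp only [Rad, Matrix.smul_apply, Matrix.vecMulVec_apply, star_star, smul_eq_mul,
      Pi.star_apply, Complex.star_def]
    push_cast
    rw [div_eq_mul_inv]
    ring
  rw [h2]
  exact h1.smul (by
    rw [Complex.zero_le_real]
    positivity)

theorem pf_RDO (hRDA : T_RDA) (hD2 : T_D2) (hA1 : T_A1) (hA4 : T_A4) : T_RDO := by
  intro N s m hN
  obtain ⟨C, hC, hdom⟩ := hRDA N s (by omega)
  refine ⟨C, hC, ?_⟩
  intro D Φ hD hΦ W v hv x hx hten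
  have hy : ev Φ x ≠ 0 := fun h => hx (hΦ.nd x h)
  set c : ℂ := ((C * trF (W (ev Φ x)) * nsq (ev Φ x) ^ s : ℝ) : ℂ) with hc
  let T : Form (Fin N) s := fun y I J => c * om N s y I J + (-1) * W y I J
  have hT : Psd (T (ev Φ x)) := by
    have h := hdom (ev Φ x) (W (ev Φ x)) hy hten
    intro a
    have h2 := h a
    have e : ∀ I J, T (ev Φ x) I J =
        ((C * trF (W (ev Φ x)) * nsq (ev Φ x) ^ s : ℝ) : ℂ) * om N s (ev Φ x) I J -
          W (ev Φ x) I J := by
      intro I J
      simp only [T, hc]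
      ring
    simp only [e]
    exact h2
  have hP : Psd (pull Φ T x) := hD2 (Fin N) (Fin N) s Φ T x hT
  have hpull : pull Φ T x = fun I J =>
      c * pull Φ (om N s) x I J + (-1) * pull Φ W x I J := by
    funext I J
    simp only [pull, T, Finset.mul_sum, ← Finset.sum_add_distrib]
    refine Finset.sum_congr rfl fun I' _ => Finset.sum_congr rfl fun J' _ => ?_
    ring
  set H : Fin (m + 1) → Matrix (Fin N) (Fin N) ℂ :=
    Fin.snoc (α := fun _ => Matrix (Fin N) (Fin N) ℂ) (fun j => hessR (v j) x) (Rad x) with hH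
  have hHp : ∀ j, (H j).PosSemidef := by
    intro j
    refine Fin.lastCases ?_ (fun i => ?_) j
    · rw [hH, Fin.snoc_last]
      exact rdo_rad x
    · rw [hH, Fin.snoc_castSucc]
      exact (hv i).psh x hx
  have hpos : 0 ≤ mixD (pull Φ T x) H := hA4 (Fin N) s (m + 1) _ H hP hHp
  have hlin := hA1 (Fin N) s (m + 1) (fun I J => c * pull Φ (om N s) x I J)
    (fun I J => (-1) * pull Φ W x I J) H 0 0 0 0
  have hl1 := hA1 (Fin N) s (m + 1) (pull Φ (om N s) x) (pull Φ (om N s) x) H 0 0 0 c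
  have hl2 := hA1 (Fin N) s (m + 1) (pull Φ W x) (pull Φ W x) H 0 0 0 (-1)
  rw [hpull, hlin.2.2.1, hl1.2.2.2, hl2.2.2.2] at hpos
  have hre : 0 ≤ (c * mixD (pull Φ (om N s) x) H + -1 * mixD (pull Φ W x) H).re :=
    (Complex.le_def.mp hpos).1
  rw [Complex.add_re, hc, Complex.re_ofReal_mul] at hre
  simp only [Q]
  rw [← hH]
  have e2 : (-1 * mixD (pull Φ W x) H).re = -(mixD (pull Φ W x) H).re := by
    rw [neg_one_mul, Complex.neg_re]
  rw [e2] at hre
  linarith

end

end Pool.Agent.H96.EHD
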