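import Pool.Agent.H92.EHD.TR

/-!
Board ehd_modules (MP_75a732_an), row RGA: Gaussian matrices with an entry moving along the
heat potential.
-/

namespace Pool.Agent.H96.EHD

open scoped BigOperators ComplexConjugate ContDiff ComplexOrder
open MeasureTheory Pool.Agent.H92.EQ Pool.Agent.H92.EHD

noncomputable section

theorem ra_gs_nonneg (t : ℂ) : 0 ≤ gs 1 t :=
  mul_nonneg (inv_nonneg.2 (mul_pos Real.pi_pos one_pos).le) (Real.exp_pos _).le

theorem ra_split {n : ℕ} {α : Type} [MeasureSpace α] [SigmaFinite (volume : Measure α)]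
    (F : α × (Fin n → α) → ENNReal) (hF : Measurable F) :
    ∫⁻ X : Fin (n + 1) → α, F (X 0, fun i => X i.succ) = ∫⁻ p : α × (Fin n → α), F p := by
  have h := (volume_preserving_piFinSuccAbove (fun _ : Fin (n + 1) => α) 0).lintegral_comp hF
  rw [← h]
  refine lintegral_congr fun X => ?_
  congr 1

theorem ra_nsq {n : ℕ} (y : Fin n → ℂ) (j : Fin n) :
    nsq (fun i : Fin n => if (i : ℕ) < (j : ℕ) then y i else 0) + ‖y j‖ ^ 2 ≤ nsq y := by
  have h1 : ‖y j‖ ^ 2 = ∑ i : Fin n, (if i = j then ‖y j‖ ^ 2 else 0) := by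
    rw [Finset.sum_ite_eq']
    simp
  unfold nsq
  rw [h1, ← Finset.sum_add_distrib]
  refine Finset.sum_le_sum fun i _ => ?_
  by_cases h2 : i = j
  · subst h2
    simp
  · by_cases h3 : (i : ℕ) < (j : ℕ)
    · simp [h2, h3]
    · simp [h2, h3]

theorem ra_vec {k : ℕ} (X : Fin (k + 1) → Fin (k + 1) → ℂ) (j : Fin (k + 1)) (r : ℂ)
    (y : Fin (k + 1) → ℂ) :
    (Matrix.of (rep (cut j X) 0 j r)).mulVec y =
      ct (∑ i, X 0 i * (if (i : ℕ) < (j : ℕ) then y i else 0) + r * y j)
        (fun i => ∑ l, X i.succ l * y l) := by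
  funext i
  refine Fin.cases ?_ (fun i => ?_) i
  · change ∑ l, rep (cut j X) 0 j r 0 l * y l =
      ∑ i, X 0 i * (if (i : ℕ) < (j : ℕ) then y i else 0) + r * y j
    have h1 : r * y j = ∑ l : Fin (k + 1), (if l = j then r * y j else 0) := by
      rw [Finset.sum_ite_eq']
      simp
    rw [h1, ← Finset.sum_add_distrib]
    refine Finset.sum_congr rfl fun l _ => ?_
    have h2 : rep (cut j X) 0 j r 0 l =
        if l = j then r else (if (l : ℕ) < (j : ℕ) then X 0 l else 0) := by
      unfold rep cut row0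
      rw [Function.update_self, Function.update_self]
      by_cases h3 : l = j
      · subst h3
        rw [Function.update_self, if_pos rfl]
      · rw [Function.update_of_ne h3, if_neg h3]
    rw [h2]
    by_cases h3 : l = j
    · subst h3
      simp
    · by_cases h4 : (l : ℕ) < (j : ℕ)
      · simp [h3, h4]
      · simp [h3, h4]
  · change ∑ l, rep (cut j X) 0 j r i.succ l * y l = ∑ l, X i.succ l * y l
    have h2 : rep (cut j X) 0 j r i.succ = X i.succ := by
      unfold rep cut row0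
      rw [Function.update_of_ne (Fin.succ_ne_zero i), Function.update_of_ne (Fin.succ_ne_zero i)]
    rw [h2]

theorem ra_ct_cont (k : ℕ) : Continuous (fun p : ℂ × (Fin k → ℂ) => ct p.1 p.2) := by
  refine continuous_pi fun i => ?_
  refine Fin.cases ?_ (fun i => ?_) i
  · exact continuous_fst
  · exact (continuous_apply i).comp continuous_snd

theorem pf_RGA (hRGB : T_RGB) (hRGC : T_RGC) (hRLA : T_RLA) : T_RGA := by
  intro k s
  obtain ⟨C, hC, hRC⟩ := hRGC k s
  refine ⟨C, hC, ?_⟩
  intro j y hy g hg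
  have hLam : Measurable Lam := hRLA.1
  set a : Fin (k + 1) → ℂ := fun i => if (i : ℕ) < (j : ℕ) then y i else 0 with ha
  have hab : nsq a + ‖y j‖ ^ 2 ≤ 1 := (ra_nsq y j).trans hy.le
  set W : (Fin k → Fin (k + 1) → ℂ) → ENNReal := fun X' =>
    ENNReal.ofReal ((∏ i, ∏ l, gs 1 (X' i l)) * (∑ i, nsq (X' i)) ^ s) with hW
  set V : (Fin k → ℂ) → ENNReal := fun w =>
    ENNReal.ofReal (Real.exp (-nsq w) * (1 + nsq w) ^ s) with hV
  set P : (Fin k → Fin (k + 1) → ℂ) → (Fin k → ℂ) := fun X' i => ∑ l, X' i l * y l with hP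
  have hWm : Measurable W := by
    refine ENNReal.measurable_ofReal.comp (Continuous.measurable ?_)
    unfold nsq gs
    fun_prop
  have hVm : Measurable V := by
    refine ENNReal.measurable_ofReal.comp (Continuous.measurable ?_)
    unfold nsq
    fun_prop
  have hPc : Continuous P := by
    rw [hP]
    fun_prop
  set G : (Fin (k + 1) → ℂ) × (Fin k → Fin (k + 1) → ℂ) → ENNReal := fun p =>
    ENNReal.ofReal (∏ i, gs 1 (p.1 i)) * (W p.2 *
      ∫⁻ r : ℂ, Lam r * ENNReal.ofReal (‖y j‖ ^ 2) *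
        g (ct (∑ i, p.1 i * a i + r * y j) (P p.2))) with hG
  have hIm : Measurable (fun p : (Fin (k + 1) → ℂ) × (Fin k → Fin (k + 1) → ℂ) =>
      ∫⁻ r : ℂ, Lam r * ENNReal.ofReal (‖y j‖ ^ 2) *
        g (ct (∑ i, p.1 i * a i + r * y j) (P p.2))) := by
    refine Measurable.lintegral_prod_right'
      (f := fun q : ((Fin (k + 1) → ℂ) × (Fin k → Fin (k + 1) → ℂ)) × ℂ =>
        Lam q.2 * ENNReal.ofReal (‖y j‖ ^ 2) *
        g (ct (∑ i, q.1.1 i * a i + q.2 * y j) (P q.1.2))) ?_
    refine Measurable.mul ((hLam.comp measurable_snd).mul_const _) (hg.comp ?_)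
    refine Continuous.measurable ?_
    refine (ra_ct_cont k).comp (Continuous.prodMk ?_ ?_)
    · fun_prop
    · exact hPc.comp (continuous_snd.comp continuous_fst)
  have hGm : Measurable G := by
    refine Measurable.mul ?_ ((hWm.comp measurable_snd).mul hIm)
    refine ENNReal.measurable_ofReal.comp (Continuous.measurable ?_)
    unfold gs
    fun_prop
  have hstep1 : ∫⁻ X : Fin (k + 1) → Fin (k + 1) → ℂ,
        ENNReal.ofReal (gss X * (∑ i : Fin k, nsq (X i.succ)) ^ s) *
          ∫⁻ r : ℂ, Lam r * ENNReal.ofReal (‖y j‖ ^ 2) *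
            g ((Matrix.of (rep (cut j X) 0 j r)).mulVec y) =
      ∫⁻ X : Fin (k + 1) → Fin (k + 1) → ℂ, G (X 0, fun i => X i.succ) := by
    refine lintegral_congr fun X => ?_
    simp only [hG]
    rw [← mul_assoc]
    have e1 : ENNReal.ofReal (gss X * (∑ i : Fin k, nsq (X i.succ)) ^ s) =
        ENNReal.ofReal (∏ i, gs 1 (X 0 i)) * W (fun i => X i.succ) := by
      simp only [hW]
      rw [← ENNReal.ofReal_mul (Finset.prod_nonneg fun i _ => ra_gs_nonneg _)]
      congr 1
      rw [← mul_assoc]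
      congr 1
      unfold gss gs
      rw [Fin.prod_univ_succ]
      simp
    rw [e1]
    congr 1
    refine lintegral_congr fun r => ?_
    rw [ra_vec]
  rw [hstep1, ra_split G hGm, Measure.volume_eq_prod, lintegral_prod_symm _ hGm.aemeasurable]
  have hstep2 : ∀ X' : Fin k → Fin (k + 1) → ℂ,
      ∫⁻ ρ : Fin (k + 1) → ℂ, G (ρ, X') ≤ W X' * ∫⁻ z : ℂ, Lam z * g (ct z (P X')) := by
    intro X'
    have hgm : Measurable (fun z : ℂ => g (ct z (P X'))) := by
      refine hg.comp (Continuous.measurable ?_)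
      exact (ra_ct_cont k).comp (Continuous.prodMk continuous_id continuous_const)
    have h1 := hRGB (k + 1) a (y j) hab (fun z => g (ct z (P X'))) hgm
    calc ∫⁻ ρ : Fin (k + 1) → ℂ, G (ρ, X')
        = ∫⁻ ρ : Fin (k + 1) → ℂ, W X' * (ENNReal.ofReal (∏ i, gs 1 (ρ i)) *
          ∫⁻ r : ℂ, Lam r * ENNReal.ofReal (‖y j‖ ^ 2) *
            g (ct (∑ i, ρ i * a i + r * y j) (P X'))) := by
          refine lintegral_congr fun ρ => ?_
          simp only [hG]
          ring
      _ = W X' * ∫⁻ ρ : Fin (k + 1) → ℂ, (ENNReal.ofReal (∏ i, gs 1 (ρ i)) *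
          ∫⁻ r : ℂ, Lam r * ENNReal.ofReal (‖y j‖ ^ 2) *
            g (ct (∑ i, ρ i * a i + r * y j) (P X'))) :=
          lintegral_const_mul' _ _ ENNReal.ofReal_ne_top
      _ ≤ _ := mul_le_mul_right h1 _
  have hHm : Measurable (fun q : (Fin k → Fin (k + 1) → ℂ) × ℂ =>
      W q.1 * (Lam q.2 * g (ct q.2 (P q.1)))) := by
    refine (hWm.comp measurable_fst).mul ((hLam.comp measurable_snd).mul (hg.comp ?_))
    refine Continuous.measurable ?_
    exact (ra_ct_cont k).comp (Continuous.prodMk continuous_snd (hPc.comp continuous_fst))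
  have hstep3 : ∫⁻ X' : Fin k → Fin (k + 1) → ℂ, W X' * ∫⁻ z : ℂ, Lam z * g (ct z (P X')) =
      ∫⁻ z : ℂ, Lam z * ∫⁻ X' : Fin k → Fin (k + 1) → ℂ, W X' * g (ct z (P X')) := by
    calc ∫⁻ X' : Fin k → Fin (k + 1) → ℂ, W X' * ∫⁻ z : ℂ, Lam z * g (ct z (P X'))
        = ∫⁻ X' : Fin k → Fin (k + 1) → ℂ, ∫⁻ z : ℂ, W X' * (Lam z * g (ct z (P X'))) := by
          refine lintegral_congr fun X' => ?_
          rw [lintegral_const_mul' _ _ ENNReal.ofReal_ne_top]
      _ = ∫⁻ z : ℂ, ∫⁻ X' : Fin k → Fin (k + 1) → ℂ, W X' * (Lam z * g (ct z (P X'))) :=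
          lintegral_lintegral_swap hHm.aemeasurable
      _ = _ := by
          refine lintegral_congr fun z => ?_
          rw [← lintegral_const_mul]
          · refine lintegral_congr fun X' => ?_
            ring
          · refine hWm.mul (hg.comp (Continuous.measurable ?_))
            exact (ra_ct_cont k).comp (Continuous.prodMk continuous_const hPc)
  have hstep4 : ∀ z : ℂ, ∫⁻ X' : Fin k → Fin (k + 1) → ℂ, W X' * g (ct z (P X')) ≤
      C * ∫⁻ w : Fin k → ℂ, V w * g (ct z w) := by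
    intro z
    refine hRC y hy (fun w => g (ct z w)) (hg.comp (Continuous.measurable ?_))
    exact (ra_ct_cont k).comp (Continuous.prodMk continuous_const continuous_id)
  set F2 : ℂ × (Fin k → ℂ) → ENNReal := fun p => Lam p.1 * V p.2 * g (ct p.1 p.2) with hF2
  have hF2m : Measurable F2 := by
    refine ((hLam.comp measurable_fst).mul (hVm.comp measurable_snd)).mul (hg.comp ?_)
    exact (ra_ct_cont k).measurable
  have hstep5 : ∫⁻ Y : Fin (k + 1) → ℂ, Lam (Y 0) *
        ENNReal.ofReal (Real.exp (-nsq (tl Y)) * (1 + nsq (tl Y)) ^ s) * g Y =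
      ∫⁻ z : ℂ, Lam z * ∫⁻ w : Fin k → ℂ, V w * g (ct z w) := by
    calc ∫⁻ Y : Fin (k + 1) → ℂ, Lam (Y 0) *
        ENNReal.ofReal (Real.exp (-nsq (tl Y)) * (1 + nsq (tl Y)) ^ s) * g Y
        = ∫⁻ Y : Fin (k + 1) → ℂ, F2 (Y 0, fun i => Y i.succ) := by
          refine lintegral_congr fun Y => ?_
          simp only [hF2, hV]
          have e1 : ct (Y 0) (fun i => Y i.succ) = Y := by
            funext i
            refine Fin.cases ?_ (fun i => ?_) i
            · rfl
            · rfl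
          rw [e1]
          rfl
      _ = ∫⁻ p : ℂ × (Fin k → ℂ), F2 p := ra_split F2 hF2m
      _ = ∫⁻ z : ℂ, ∫⁻ w : Fin k → ℂ, F2 (z, w) := by
          rw [Measure.volume_eq_prod, lintegral_prod _ hF2m.aemeasurable]
      _ = _ := by
          refine lintegral_congr fun z => ?_
          rw [← lintegral_const_mul]
          · refine lintegral_congr fun w => ?_
            simp only [hF2]
            ring
          · refine hVm.mul (hg.comp (Continuous.measurable ?_))
            exact (ra_ct_cont k).comp (Continuous.prodMk continuous_const continuous_id)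
  rw [hstep5]
  calc ∫⁻ X' : Fin k → Fin (k + 1) → ℂ, ∫⁻ ρ : Fin (k + 1) → ℂ, G (ρ, X')
      ≤ ∫⁻ X' : Fin k → Fin (k + 1) → ℂ, W X' * ∫⁻ z : ℂ, Lam z * g (ct z (P X')) :=
        lintegral_mono hstep2
    _ = ∫⁻ z : ℂ, Lam z * ∫⁻ X' : Fin k → Fin (k + 1) → ℂ, W X' * g (ct z (P X')) := hstep3
    _ ≤ ∫⁻ z : ℂ, Lam z * (C * ∫⁻ w : Fin k → ℂ, V w * g (ct z w)) :=
        lintegral_mono fun z => mul_le_mul_right (hstep4 z) _
    _ = C * ∫⁻ z : ℂ, Lam z * ∫⁻ w : Fin k → ℂ, V w * g (ct z w) := by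
        rw [← lintegral_const_mul' _ _ hC]
        refine lintegral_congr fun z => ?_
        ring

end

end Pool.Agent.H96.EHD
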