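import Pool.Agent.H92.EHD.TR

/-!
Board ehd_modules (MP_75a732_an), row RGC: Gaussian matrices applied to a unit vector.
-/

namespace Pool.Agent.H96.EHD

open scoped BigOperators ComplexConjugate ContDiff ComplexOrder
open MeasureTheory Pool.Agent.H92.EQ Pool.Agent.H92.EHD

noncomputable section

theorem rg_gs_nonneg {s : ℝ} (hs : 0 < s) (t : ℂ) : 0 ≤ gs s t :=
  mul_nonneg (inv_nonneg.2 (mul_pos Real.pi_pos hs).le) (Real.exp_pos _).le

theorem rg_gs_cont (s : ℝ) : Continuous (gs s) := by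
  unfold gs
  fun_prop

theorem rg_gs_int {s : ℝ} (hs : 0 < s) : Integrable (gs s) := by
  have h1 : ∀ t : ℂ, gs s t = (Real.pi * s)⁻¹ * Real.exp (-(s⁻¹) * ‖t‖ ^ 2) := fun t => by
    unfold gs
    congr 2
    field_simp
  have hs' : 0 < s⁻¹ := inv_pos.2 hs
  have h2 := GaussianFourier.integral_rexp_neg_mul_sq_norm (V := ℂ) hs'
  rw [Complex.finrank_real_complex] at h2
  have h3 : ∫ t : ℂ, Real.exp (-(s⁻¹) * ‖t‖ ^ 2) = Real.pi * s := by
    rw [h2]
    norm_num
  have h4 : Integrable fun t : ℂ => Real.exp (-(s⁻¹) * ‖t‖ ^ 2) := by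
    by_contra hcon
    rw [integral_undef hcon] at h3
    exact (mul_pos Real.pi_pos hs).ne h3
  have h5 : gs s = fun t : ℂ => (Real.pi * s)⁻¹ * Real.exp (-(s⁻¹) * ‖t‖ ^ 2) := funext h1
  rw [h5]
  exact h4.const_mul _

theorem rg_nsq_nonneg {n : ℕ} (z : Fin n → ℂ) : 0 ≤ nsq z :=
  Finset.sum_nonneg fun _ _ => by positivity

theorem rg_nsq_cont (n : ℕ) : Continuous (nsq : (Fin n → ℂ) → ℝ) := by
  unfold nsq
  fun_prop

/-- The integral of the rest is finite. -/
theorem rg_moment (k n s : ℕ) :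
    ∫⁻ R : Fin k → Fin n → ℂ, ENNReal.ofReal ((∏ i, ∏ j, gs 1 (R i j)) *
      (1 + ∑ i, nsq (R i)) ^ s) ≠ ⊤ := by
  set K : ℝ := (s.factorial : ℝ) * 2 ^ s * Real.exp (1 / 2) with hK
  have hI : Integrable (fun R : Fin k → Fin n → ℂ =>
      K * ∏ i, ∏ j, (2 * gs 2 (R i j))) := by
    refine Integrable.const_mul ?_ _
    refine Integrable.fintype_prod (f := fun (_ : Fin k) (x : Fin n → ℂ) =>
      ∏ j, (2 * gs 2 (x j))) fun _ => ?_
    exact Integrable.fintype_prod (f := fun (_ : Fin n) (x : ℂ) => 2 * gs 2 x) fun _ =>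
      (rg_gs_int (by norm_num)).const_mul _
  refine (lt_of_le_of_lt (lintegral_mono fun R => ENNReal.ofReal_le_ofReal ?_)
    hI.lintegral_lt_top).ne
  have hρ : 0 ≤ ∑ i, nsq (R i) := Finset.sum_nonneg fun i _ => rg_nsq_nonneg _
  set ρ := ∑ i, nsq (R i) with hρd
  have h1 : (1 + ρ) ^ s ≤ K * Real.exp (ρ / 2) := by
    have h2 := Real.pow_div_factorial_le_exp (x := (1 + ρ) / 2) (by positivity) s
    rw [div_pow, div_div, div_le_iff₀ (by positivity)] at h2
    calc (1 + ρ) ^ s ≤ Real.exp ((1 + ρ) / 2) * (2 ^ s * (s.factorial : ℝ)) := h2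
      _ = K * Real.exp (ρ / 2) := by
        rw [hK, add_div, Real.exp_add]
        ring
  have h3 : (∏ i, ∏ j, gs 1 (R i j)) * Real.exp (ρ / 2) = ∏ i, ∏ j, (2 * gs 2 (R i j)) := by
    have e1 : Real.exp (ρ / 2) = ∏ i, ∏ j, Real.exp (‖R i j‖ ^ 2 / 2) := by
      rw [hρd]
      simp only [nsq]
      rw [Finset.sum_div, Real.exp_sum]
      refine Finset.prod_congr rfl fun i _ => ?_
      rw [Finset.sum_div, Real.exp_sum]
    rw [e1, ← Finset.prod_mul_distrib]
    refine Finset.prod_congr rfl fun i _ => ?_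
    rw [← Finset.prod_mul_distrib]
    refine Finset.prod_congr rfl fun j _ => ?_
    unfold gs
    rw [mul_assoc, ← Real.exp_add]
    have e2 : -‖R i j‖ ^ 2 / 1 + ‖R i j‖ ^ 2 / 2 = -‖R i j‖ ^ 2 / 2 := by ring
    rw [e2]
    have := Real.pi_pos.ne'
    field_simp
  have h4 : 0 ≤ ∏ i, ∏ j, gs 1 (R i j) :=
    Finset.prod_nonneg fun i _ => Finset.prod_nonneg fun j _ => rg_gs_nonneg one_pos _
  calc (∏ i, ∏ j, gs 1 (R i j)) * (1 + ρ) ^ s
      ≤ (∏ i, ∏ j, gs 1 (R i j)) * (K * Real.exp (ρ / 2)) := by gcongr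
    _ = K * ((∏ i, ∏ j, gs 1 (R i j)) * Real.exp (ρ / 2)) := by ring
    _ = K * ∏ i, ∏ j, (2 * gs 2 (R i j)) := by rw [h3]

/-- Splitting off the first column. -/
theorem rg_colSplit (k n : ℕ) :
    MeasurePreserving (fun X : Fin k → Fin (n + 1) → ℂ =>
      ((fun i => X i 0, fun i j => X i j.succ) : (Fin k → ℂ) × (Fin k → Fin n → ℂ))) := by
  have h1 := volume_preserving_piFinSuccAbove (fun _ : Fin (n + 1) => ℂ) 0
  have h2 : MeasurePreserving (fun X : Fin k → (Fin (n + 1) → ℂ) => fun i =>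
      (MeasurableEquiv.piFinSuccAbove (fun _ : Fin (n + 1) => ℂ) 0) (X i)) :=
    volume_preserving_pi (fun _ => h1)
  have h3 := volume_measurePreserving_arrowProdEquivProdArrow ℂ (Fin n → ℂ) (Fin k)
  have h4 := h3.comp h2
  have e : (fun X : Fin k → Fin (n + 1) → ℂ =>
      ((fun i => X i 0, fun i j => X i j.succ) : (Fin k → ℂ) × (Fin k → Fin n → ℂ))) =
      (MeasurableEquiv.arrowProdEquivProdArrow ℂ (Fin n → ℂ) (Fin k)) ∘
      (fun X : Fin k → (Fin (n + 1) → ℂ) => fun i =>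
      (MeasurableEquiv.piFinSuccAbove (fun _ : Fin (n + 1) => ℂ) 0) (X i)) := by
    funext X
    refine Prod.ext ?_ ?_
    · rfl
    · funext i j
      simp only [Function.comp_apply, MeasurableEquiv.arrowProdEquivProdArrow]
      change X i j.succ = X i (Fin.succAbove 0 j)
      rw [Fin.succAbove_zero]
  rw [e]
  exact h4

theorem rg_col_lint (k n : ℕ) (F : (Fin k → ℂ) × (Fin k → Fin n → ℂ) → ENNReal)
    (hF : Measurable F) :
    ∫⁻ X : Fin k → Fin (n + 1) → ℂ, F (fun i => X i 0, fun i j => X i j.succ) =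
      ∫⁻ w : Fin k → ℂ, ∫⁻ R : Fin k → Fin n → ℂ, F (w, R) := by
  rw [(rg_colSplit k n).lintegral_comp hF, Measure.volume_eq_prod,
    lintegral_prod _ hF.aemeasurable]

/-- Invariance of `nsq` under a unitary matrix acting on the right. -/
theorem rg_nsq_mul {n : ℕ} (U : Matrix (Fin n) (Fin n) ℂ) (hU : U * U.conjTranspose = 1)
    (x : Fin n → ℂ) : nsq (fun j => ∑ l, x l * U l j) = nsq x := by
  have h1 : ∀ z : Fin n → ℂ, ((nsq z : ℝ) : ℂ) = z ⬝ᵥ star z := by
    intro z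
    simp only [nsq, dotProduct, Pi.star_apply, Complex.star_def]
    push_cast
    refine Finset.sum_congr rfl fun i _ => ?_
    rw [Complex.mul_conj, Complex.normSq_eq_norm_sq]
    push_cast
    rfl
  have h2 : (fun j => ∑ l, x l * U l j) = Matrix.vecMul x U := by
    funext j
    rfl
  have h3 : ((nsq (fun j => ∑ l, x l * U l j) : ℝ) : ℂ) = ((nsq x : ℝ) : ℂ) := by
    rw [h1, h1, h2, Matrix.star_vecMul, ← Matrix.dotProduct_mulVec,
      Matrix.mulVec_mulVec, hU, Matrix.one_mulVec]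
  exact_mod_cast h3

theorem pf_RGC (hRUN : T_RUN) : T_RGC := by
  intro k s
  refine ⟨∫⁻ R : Fin k → Fin k → ℂ, ENNReal.ofReal ((∏ i, ∏ j, gs 1 (R i j)) *
      (1 + ∑ i, nsq (R i)) ^ s), rg_moment k k s, ?_⟩
  intro y hy g hg
  obtain ⟨U, hU1, hU2, hU3, hinv⟩ := hRUN k y hy
  have hm1 : Measurable (fun X : Fin k → Fin (k + 1) → ℂ =>
      ENNReal.ofReal ((∑ i, nsq (X i)) ^ s)) := by
    refine ENNReal.measurable_ofReal.comp (Continuous.measurable ?_)
    unfold nsq
    fun_prop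
  have hm2 : Measurable (fun X : Fin k → Fin (k + 1) → ℂ =>
      g (fun i => ∑ j, X i j * y j)) := by
    refine hg.comp (Continuous.measurable ?_)
    fun_prop
  have hpos : ∀ X : Fin k → Fin (k + 1) → ℂ, 0 ≤ ∏ i, ∏ j, gs 1 (X i j) := fun X =>
    Finset.prod_nonneg fun i _ => Finset.prod_nonneg fun j _ => rg_gs_nonneg one_pos _
  have key := hinv k (fun X => ENNReal.ofReal ((∑ i, nsq (X i)) ^ s) *
      g (fun i => ∑ j, X i j * y j)) (hm1.mul hm2)
  have hy0 : ∀ x : Fin (k + 1) → ℂ, ∑ j, (∑ l, x l * U l j) * y j = x 0 := by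
    intro x
    have h1 : ∑ j, (∑ l, x l * U l j) * y j = Matrix.vecMul x U ⬝ᵥ y := rfl
    rw [h1, ← Matrix.dotProduct_mulVec, hU3]
    simp [dotProduct, Pi.single_apply]
  have hL : ∫⁻ X : Fin k → Fin (k + 1) → ℂ,
        ENNReal.ofReal ((∏ i, ∏ j, gs 1 (X i j)) * (∑ i, nsq (X i)) ^ s) *
          g (fun i => ∑ j, X i j * y j) =
      ∫⁻ X : Fin k → Fin (k + 1) → ℂ, ENNReal.ofReal (∏ i, ∏ j, gs 1 (X i j)) *
        (ENNReal.ofReal ((∑ i, nsq (X i)) ^ s) * g (fun i => X i 0)) := by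
    calc ∫⁻ X : Fin k → Fin (k + 1) → ℂ,
        ENNReal.ofReal ((∏ i, ∏ j, gs 1 (X i j)) * (∑ i, nsq (X i)) ^ s) *
          g (fun i => ∑ j, X i j * y j)
        = ∫⁻ X : Fin k → Fin (k + 1) → ℂ, ENNReal.ofReal (∏ i, ∏ j, gs 1 (X i j)) *
          (ENNReal.ofReal ((∑ i, nsq (X i)) ^ s) * g (fun i => ∑ j, X i j * y j)) := by
          refine lintegral_congr fun X => ?_
          rw [ENNReal.ofReal_mul (hpos X), mul_assoc]
      _ = _ := by
          rw [← key]
          refine lintegral_congr fun X => ?_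
          have e1 : ∀ i, nsq (fun j => ∑ l, X i l * U l j) = nsq (X i) := fun i =>
            rg_nsq_mul U hU1 (X i)
          have e2 : (fun i => ∑ j, (∑ l, X i l * U l j) * y j) = fun i => X i 0 := by
            funext i
            exact hy0 (X i)
          simp only [e1, e2]
  rw [hL]
  set F : (Fin k → ℂ) × (Fin k → Fin k → ℂ) → ENNReal := fun p =>
    ENNReal.ofReal (∏ i, (gs 1 (p.1 i) * ∏ j, gs 1 (p.2 i j))) *
      (ENNReal.ofReal ((∑ i, (‖p.1 i‖ ^ 2 + nsq (p.2 i))) ^ s) * g p.1) with hF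
  have hFm : Measurable F := by
    refine Measurable.mul ?_ (Measurable.mul ?_ (hg.comp measurable_fst))
    · refine ENNReal.measurable_ofReal.comp (Continuous.measurable ?_)
      unfold gs
      fun_prop
    · refine ENNReal.measurable_ofReal.comp (Continuous.measurable ?_)
      unfold nsq
      fun_prop
  have hsplit := rg_col_lint k k F hFm
  have hL2 : ∫⁻ X : Fin k → Fin (k + 1) → ℂ, ENNReal.ofReal (∏ i, ∏ j, gs 1 (X i j)) *
        (ENNReal.ofReal ((∑ i, nsq (X i)) ^ s) * g (fun i => X i 0)) =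
      ∫⁻ X : Fin k → Fin (k + 1) → ℂ, F (fun i => X i 0, fun i j => X i j.succ) := by
    refine lintegral_congr fun X => ?_
    simp only [hF]
    congr 2
    · refine Finset.prod_congr rfl fun i _ => ?_
      rw [Fin.prod_univ_succ]
    · refine congrArg _ (congrArg (fun t => t ^ s) (Finset.sum_congr rfl fun i _ => ?_))
      simp only [nsq]
      rw [Fin.sum_univ_succ]
  rw [hL2, hsplit]
  rw [← lintegral_const_mul']
  · refine lintegral_mono fun w => ?_
    have hw : ∀ R : Fin k → Fin k → ℂ, F (w, R) ≤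
        ENNReal.ofReal ((∏ i, ∏ j, gs 1 (R i j)) * (1 + ∑ i, nsq (R i)) ^ s) *
        (ENNReal.ofReal (Real.exp (-nsq w) * (1 + nsq w) ^ s) * g w) := by
      intro R
      simp only [hF]
      rw [← mul_assoc, ← mul_assoc]
      refine mul_le_mul_left ?_ _
      have p1 : 0 ≤ ∏ i, (gs 1 (w i) * ∏ j, gs 1 (R i j)) :=
        Finset.prod_nonneg fun i _ => mul_nonneg (rg_gs_nonneg one_pos _)
          (Finset.prod_nonneg fun j _ => rg_gs_nonneg one_pos _)
      have p2 : 0 ≤ ∏ i, ∏ j, gs 1 (R i j) :=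
        Finset.prod_nonneg fun i _ => Finset.prod_nonneg fun j _ => rg_gs_nonneg one_pos _
      have p3 : 0 ≤ nsq w := rg_nsq_nonneg w
      have p4 : 0 ≤ ∑ i, nsq (R i) := Finset.sum_nonneg fun i _ => rg_nsq_nonneg _
      rw [← ENNReal.ofReal_mul p1, ← ENNReal.ofReal_mul (by positivity)]
      refine ENNReal.ofReal_le_ofReal ?_
      have q1 : ∏ i, gs 1 (w i) ≤ Real.exp (-nsq w) := by
        have e1 : Real.exp (-nsq w) = ∏ i, Real.exp (-‖w i‖ ^ 2) := by
          rw [← Real.exp_sum, Finset.sum_neg_distrib]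
          rfl
        rw [e1]
        refine Finset.prod_le_prod (fun i _ => rg_gs_nonneg one_pos _) fun i _ => ?_
        unfold gs
        rw [div_one, mul_one]
        have h5 : Real.pi⁻¹ ≤ 1 := inv_le_one_of_one_le₀ (by linarith [Real.pi_gt_three])
        calc Real.pi⁻¹ * Real.exp (-‖w i‖ ^ 2) ≤ 1 * Real.exp (-‖w i‖ ^ 2) := by gcongr
          _ = _ := one_mul _
      have q2 : ∑ i, (‖w i‖ ^ 2 + nsq (R i)) = nsq w + ∑ i, nsq (R i) := by
        rw [Finset.sum_add_distrib]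
        rfl
      rw [Finset.prod_mul_distrib, q2]
      calc (∏ i, gs 1 (w i)) * (∏ i, ∏ j, gs 1 (R i j)) * (nsq w + ∑ i, nsq (R i)) ^ s
          ≤ Real.exp (-nsq w) * (∏ i, ∏ j, gs 1 (R i j)) *
            ((1 + nsq w) * (1 + ∑ i, nsq (R i))) ^ s := by
            gcongr
            nlinarith [mul_nonneg p3 p4]
        _ = _ := by
            rw [mul_pow]
            ring
    calc ∫⁻ R : Fin k → Fin k → ℂ, F (w, R)
        ≤ ∫⁻ R : Fin k → Fin k → ℂ,
          ENNReal.ofReal ((∏ i, ∏ j, gs 1 (R i j)) * (1 + ∑ i, nsq (R i)) ^ s) *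
          (ENNReal.ofReal (Real.exp (-nsq w) * (1 + nsq w) ^ s) * g w) :=
          lintegral_mono hw
      _ = _ := by
          rw [lintegral_mul_const]
          refine ENNReal.measurable_ofReal.comp (Continuous.measurable ?_)
          unfold nsq gs
          fun_prop
  · exact rg_moment k k s

end

end Pool.Agent.H96.EHD
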